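import Pool.Agent.Y52.SJ.Stm2
import Pool.Agent.H809R2.GI.Gauss2

set_option autoImplicit false

namespace Pool.Agent.Y281.SJ.RND

open MeasureTheory ProbabilityTheory Pool.Agent.H809R2.GI
open scoped RealInnerProductSpace

/-- `t arcsin t ≥ t²` on `[-1, 1]`. -/
theorem sq_le_mul_arcsin (t : ℝ) (h1 : -1 ≤ t) (h2 : t ≤ 1) : t ^ 2 ≤ t * Real.arcsin t := by
  rcases le_total 0 t with h | h
  · have hs : 0 ≤ Real.arcsin t := Real.arcsin_nonneg.mpr h
    have h3 : t ≤ Real.arcsin t := by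
      calc t = Real.sin (Real.arcsin t) := (Real.sin_arcsin h1 h2).symm
        _ ≤ Real.arcsin t := Real.sin_le hs
    nlinarith
  · have hs : 0 ≤ Real.arcsin (-t) := Real.arcsin_nonneg.mpr (by linarith)
    have h3 : -t ≤ Real.arcsin (-t) := by
      calc -t = Real.sin (Real.arcsin (-t)) := (Real.sin_arcsin (by linarith) (by linarith)).symm
        _ ≤ Real.arcsin (-t) := Real.sin_le hs
    rw [Real.arcsin_neg] at h3
    nlinarith

theorem main : Pool.Agent.Y52.SJ.S_RND := by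
  intro V _ _ _ m w x y hw hx hy
  let _ : MeasurableSpace V := borel V
  have _ : BorelSpace V := ⟨rfl⟩
  let F : V → ℝ := fun g => ∑ i, ∑ j, w i j * (⟪x i, y j⟫ : ℝ) * sg ⟪x i, g⟫ * sg ⟪y j, g⟫
  have hmeasx : ∀ i, Measurable fun g : V => sg ⟪x i, g⟫ := fun i =>
    measurable_sg.comp (by fun_prop)
  have hmeasy : ∀ i, Measurable fun g : V => sg ⟪y i, g⟫ := fun i =>
    measurable_sg.comp (by fun_prop)
  have hint : ∀ i j, Integrable (fun g : V => sg ⟪x i, g⟫ * sg ⟪y j, g⟫) (stdGaussian V) := by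
    intro i j
    refine Integrable.of_bound ((hmeasx i).mul (hmeasy j)).aestronglyMeasurable 1
      (Filter.Eventually.of_forall fun g => ?_)
    rw [Real.norm_eq_abs, abs_mul, abs_sg, abs_sg, mul_one]
  have hint2 : ∀ i j, Integrable
      (fun g : V => w i j * (⟪x i, y j⟫ : ℝ) * sg ⟪x i, g⟫ * sg ⟪y j, g⟫) (stdGaussian V) := by
    intro i j
    refine ((hint i j).const_mul (w i j * (⟪x i, y j⟫ : ℝ))).congr
      (Filter.Eventually.of_forall fun g => ?_)
    simp only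
    ring
  have hF : Integrable F (stdGaussian V) :=
    integrable_finsetSum _ fun i _ => integrable_finsetSum _ fun j _ => hint2 i j
  have hval : ∫ g, F g ∂(stdGaussian V) =
      ∑ i, ∑ j, w i j * (⟪x i, y j⟫ : ℝ) * (2 / Real.pi * Real.arcsin ⟪x i, y j⟫) := by
    change ∫ g, (∑ i, ∑ j, w i j * (⟪x i, y j⟫ : ℝ) * sg ⟪x i, g⟫ * sg ⟪y j, g⟫)
      ∂(stdGaussian V) = _
    rw [integral_finsetSum _ fun i _ => integrable_finsetSum _ fun j _ => hint2 i j]
    refine Finset.sum_congr rfl fun i _ => ?_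
    rw [integral_finsetSum _ fun j _ => hint2 i j]
    refine Finset.sum_congr rfl fun j _ => ?_
    rw [← grothendieck_identity (x i) (y j) (hx i) (hy j), ← integral_const_mul]
    congr 1
    ext g
    ring
  obtain ⟨g, hg⟩ := exists_integral_le hF
  refine ⟨fun i => sg ⟪x i, g⟫, fun j => sg ⟪y j, g⟫, fun i => abs_sg _, fun j => abs_sg _, ?_⟩
  refine le_trans ?_ (hg.trans_eq rfl)
  rw [hval, Finset.mul_sum]
  refine Finset.sum_le_sum fun i _ => ?_
  rw [Finset.mul_sum]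
  refine Finset.sum_le_sum fun j _ => ?_
  have hb1 : -1 ≤ (⟪x i, y j⟫ : ℝ) := by
    have := abs_real_inner_le_norm (x i) (y j)
    rw [hx, hy] at this
    linarith [neg_abs_le (⟪x i, y j⟫ : ℝ)]
  have hb2 : (⟪x i, y j⟫ : ℝ) ≤ 1 := by
    have := real_inner_le_norm (x i) (y j)
    rw [hx, hy] at this
    linarith
  have h3 := sq_le_mul_arcsin _ hb1 hb2
  have h4 : 0 ≤ 2 / Real.pi * w i j := mul_nonneg (by positivity) (hw i j)
  calc 2 / Real.pi * (w i j * (⟪x i, y j⟫ : ℝ) ^ 2)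
      = 2 / Real.pi * w i j * (⟪x i, y j⟫ : ℝ) ^ 2 := by ring
    _ ≤ 2 / Real.pi * w i j * ((⟪x i, y j⟫ : ℝ) * Real.arcsin ⟪x i, y j⟫) :=
        mul_le_mul_of_nonneg_left h3 h4
    _ = _ := by ring

end Pool.Agent.Y281.SJ.RND
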